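import Pool.Agent.Helper74.UB.Goals2

/-!
# UB-HER and UB-EXIT: half burning boundary darts of subcomponents; last exit of a walk
-/

namespace Pool.Agent.Helper35.UB

open Finset Equiv Helper28.VF Pool.Agent.Helper74.UB
open scoped Classical

section
variable {D V E F : Type} [Fintype D] [Fintype V] [Fintype E] [Fintype F] (M : PM D V E F)

theorem fc_ph (d : D) : M.fc (ph M d) = M.fc d := by
  symm
  rw [M.fc_iff]
  refine ⟨1, ?_⟩
  simp [ph, Equiv.Perm.mul_apply]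

theorem vt_ph (d : D) : M.vt (ph M d) = tg M d := by
  symm
  unfold tg ph
  rw [M.vt_iff]
  exact ⟨1, by simp⟩

theorem fa_vt {d e : D} (h : M.fc e = M.fc d) : FA M (M.vt e) (M.vt d) := ⟨e, d, h, rfl, rfl⟩

theorem fa_tg {d e : D} (h : M.fc e = M.fc d) : FA M (M.vt e) (tg M d) :=
  ⟨e, ph M d, by rw [fc_ph, h], rfl, vt_ph M d⟩

theorem ad_dart (d : D) : Ad M (M.vt d) (tg M d) := ⟨d, rfl, rfl⟩

theorem ad_symm {u v : V} (h : Ad M u v) : Ad M v u := by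
  obtain ⟨d, h1, h2⟩ := h
  refine ⟨M.α d, h2, ?_⟩
  unfold tg
  rw [M.α_inv]
  exact h1

theorem her_sub {c : ℕ} {v₀ : V} {A Q : ℕ → Finset V} (hF : Fire M c v₀ A Q) {s t : ℕ}
    {O O₁ : Finset V} (hO : IsComp M (Q t) O) (hO₁ : IsComp M (Q s) O₁)
    (hsub : O₁ ⊆ O) {d : D} (hd : d ∈ bd M O₁)
    (hh : ¬ (M.vt d ∈ A s ↔ tg M d ∈ A s)) : d ∈ bd M O := by
  have hd' : Bd M O₁ d := by simpa [bd] using hd
  obtain ⟨⟨e, he, hew⟩, h1, h2⟩ := hd'
  have hout : ∀ s' v, v ∈ A s' → v ∉ O := by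
    intro s' v hv hvO
    exact Finset.disjoint_left.1 (hF.disj t s') (hO.sub hvO) hv
  have hv1 : M.vt d ∉ Q s := fun h =>
    h1 (hO₁.closed _ hew _ h (fa_vt M he))
  have hv2 : tg M d ∉ Q s := fun h =>
    h2 (hO₁.closed _ hew _ h (fa_tg M he))
  have key : M.vt d ∉ O ∧ tg M d ∉ O := by
    by_cases ha : M.vt d ∈ A s
    · refine ⟨hout _ _ ha, ?_⟩
      rcases hF.spread s _ ha _ (ad_dart M d) with h | h
      · exact hout _ _ h
      · exact absurd h hv2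
    · have hb : tg M d ∈ A s := by
        by_contra hb
        exact hh ⟨fun h => absurd h ha, fun h => absurd h hb⟩
      refine ⟨?_, hout _ _ hb⟩
      rcases hF.spread s _ hb _ (ad_symm M (ad_dart M d)) with h | h
      · exact hout _ _ h
      · exact absurd h hv1
  have : Bd M O d := ⟨⟨e, he, hsub hew⟩, key⟩
  simpa [bd] using this

end

/-- **HER.** -/
theorem her (hP : StmtPart) : StmtHer := by
  intro D V E F _ _ _ _ M c v₀ A Q hF s t O O₁ O₂ _hst hO hO₁ hO₂ hs1 hs2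
  have sub1 : ((bd M O₁).filter fun d => ¬ (M.vt d ∈ A s ↔ tg M d ∈ A s)) ⊆
      ((bd M O).filter fun d => ¬ (M.vt d ∈ A s ↔ tg M d ∈ A s)) := by
    intro d hd
    rw [Finset.mem_filter] at hd ⊢
    exact ⟨her_sub M hF hO hO₁ hs1 hd.1 hd.2, hd.2⟩
  have sub2 : ((bd M O₂).filter fun d => ¬ (M.vt d ∈ A s ↔ tg M d ∈ A s)) ⊆
      ((bd M O).filter fun d => ¬ (M.vt d ∈ A s ↔ tg M d ∈ A s)) := by
    intro d hd
    rw [Finset.mem_filter] at hd ⊢
    exact ⟨her_sub M hF hO hO₂ hs2 hd.1 hd.2, hd.2⟩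
  refine ⟨Finset.card_le_card sub1, fun hne => ?_⟩
  have hdis : Disjoint ((bd M O₁).filter fun d => ¬ (M.vt d ∈ A s ↔ tg M d ∈ A s))
      ((bd M O₂).filter fun d => ¬ (M.vt d ∈ A s ↔ tg M d ∈ A s)) := by
    rw [Finset.disjoint_left]
    intro d h1 h2
    rw [Finset.mem_filter] at h1 h2
    have b1 : Bd M O₁ d := by simpa [bd] using h1.1
    have b2 : Bd M O₂ d := by simpa [bd] using h2.1
    obtain ⟨⟨e₁, he₁, hw₁⟩, _, _⟩ := b1
    obtain ⟨⟨e₂, he₂, hw₂⟩, _, _⟩ := b2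
    apply hne
    refine (hP D V E F M).2.2.1 (Q s) O₁ O₂ hO₁ hO₂ ?_
    rw [Finset.not_disjoint_iff]
    refine ⟨M.vt e₂, ?_, hw₂⟩
    exact hO₁.closed _ hw₁ _ (hO₂.sub hw₂) (fa_vt M (he₁.trans he₂.symm))
  unfold hf
  rw [← Finset.card_union_of_disjoint hdis]
  exact Finset.card_le_card (Finset.union_subset sub1 sub2)

end Pool.Agent.Helper35.UB
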