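import Pool.Agent.Helper74.UB.Goals4
import Pool.Agent.Helper35.UB.Her

/-!
# UB-BASEF: facts on the general situation
-/

namespace Pool.Agent.Helper35.UB

open Finset Equiv Helper28.VF Pool.Agent.Helper74.UB
open scoped Classical

theorem basef (hCS : StmtConeSmall) (hHS : StmtHSmall) (hCA : StmtConeAd) (hSt : StmtStrip)
    (hT : StmtTpF) : StmtBaseF := by
  intro K h V D E F E' F' _ _ _ _ _ _ L f M dE dW dU dN I M' y0 y1 c v₀ A Q hB
  obtain ⟨hS1, hS2, hS3, hS4, hS5, hS6⟩ := hSt K h V D E F L f M dE dW dU dN hB.host hB.lm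
  obtain ⟨hA1, hA2, hA3, hA4, hA5, hA6⟩ := hCA D V E F E' F' M I M' hB.cone
  have hmono : Monotone A := monotone_nat_of_le_succ hB.fire.mono
  have hA0 : A 0 = {v₀} := hB.fire.zero
  have hy : y0 ≤ y1 ∧ y1 ≤ y0 + 1 := by
    rcases hB.start with h1 | h1
    · have := h1.1; omega
    · have := h1.1; omega
  -- (1)
  have c1 : ∀ s q, Sum.inr q ∈ A s := by
    intro s q
    rcases hB.start with h1 | h1
    · exact absurd q.2 (h1.2.1 q.1)
    · obtain ⟨_, _, ⟨j, hj⟩, ⟨q0, hq0⟩, _⟩ := h1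
      have hqq : q = q0 := Subtype.ext (((hj q.1).1 q.2).trans ((hj q0.1).1 q0.2).symm)
      apply hmono (Nat.zero_le s)
      rw [hA0, hq0, hqq]
      exact mem_singleton_self _
  -- (2)
  have c2 : ∀ s, ∀ u ∈ Q s, ∃ v, u = Sum.inl v := by
    intro s u hu
    rcases u with v | q
    · exact ⟨v, rfl⟩
    · exact absurd (c1 s q) (Finset.disjoint_left.1 (hB.fire.disj s s) hu)
  -- (4)
  have c4 : ∀ d, I (M.fc d) → T4 M d ∧ InStrip M L.row d y0 ∧ Even y0 := by
    intro d hd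
    rcases hB.start with h1 | h1
    · exact absurd hd (h1.2.1 _)
    · obtain ⟨hy1, hev, ⟨j, hj⟩, _⟩ := h1
      have hfc : M.fc d = M.fc (dE (f y0 j)) := (hj _).1 hd
      have hr0 := hB.rng.1
      have hr1 := hB.rng.2
      have hrow : L.row (f y0 j) = y0 := by
        obtain ⟨n, hn⟩ := Int.eq_ofNat_of_zero_le hr0
        rw [hn]
        exact hB.host.flat.row n j (Nat.zero_le _) (by omega)
      have hst : InStrip M L.row (dE (f y0 j)) y0 := by
        have := hS1 (f y0 j) (by rw [hrow, hB.host.r1]; omega)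
        rwa [hrow] at this
      have hst' : InStrip M L.row d y0 := by
        unfold InStrip at hst ⊢
        rw [hfc]
        exact hst
      exact ⟨(hS6 d).2 ⟨y0, hr0, by omega, hev, hst'⟩, hst', hev⟩
  -- corners of faces of `I`
  have hcor : ∀ q : {q : F // I q}, ∀ v, (∃ d, M.fc d = q.1 ∧ M.vt d = v) →
      (L.row v = y0 ∨ L.row v = y0 + 1) ∧ y1 = y0 + 1 := by
    rintro q v ⟨d, hd, rfl⟩
    refine ⟨(c4 d (by rw [hd]; exact q.2)).2.1.1 d rfl, ?_⟩
    rcases hB.start with h1 | h1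
    · exact absurd q.2 (h1.2.1 q.1)
    · exact h1.1
  -- the key fact on neighbours
  have key : ∀ s v, (∃ u ∈ A s, Ad M' u (Sum.inl v)) →
      L.row v ≤ tp L.row y0 (A s) + 1 ∧ bt L.row y1 (A s) ≤ L.row v + 1 := by
    rintro s v ⟨u, hu, huv⟩
    obtain ⟨⟨t1, t2, _⟩, ⟨b1, b2, _⟩, _⟩ := hT V {q : F // I q} L.row y0 (A s)
    obtain ⟨_, ⟨b1, b2, _⟩, _⟩ := hT V {q : F // I q} L.row y1 (A s)
    rcases u with u | q
    · have h1 : Ad M u v := (hA1 u v).1 huv
      obtain ⟨d, rfl, rfl⟩ := h1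
      have h2 := hS4 _ _ (fa_tg M (rfl : M.fc d = M.fc d))
      have h3 := t2 _ hu
      have h4 := b2 _ hu
      omega
    · obtain ⟨h1, h2⟩ := hcor q v ((hA2 q v).1.1 huv)
      omega
  refine ⟨c1, c2, ?_, c4, ?_, ?_, ?_, ?_, ?_⟩
  · -- (3)
    obtain ⟨hs1, hs2⟩ := hHS K h V D E F L f M dE dW dU dN hB.host hB.lm
    obtain ⟨h1, h2, _⟩ := hCS D V E F E' F' M I M' hB.cone hs1 (fun d hd => (c4 d hd).1)
    exact ⟨h1, fun v => by rw [h2 v]; exact hs2 v⟩
  · -- (5)
    intro u v huv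
    exact hS4 u v (hA4 u v huv)
  · -- (6)
    obtain ⟨⟨t1, t2, t3⟩, _, _⟩ := hT V {q : F // I q} L.row y0 (A 0)
    obtain ⟨_, ⟨b1, b2, b3⟩, _⟩ := hT V {q : F // I q} L.row y1 (A 0)
    have hm : ∀ v, Sum.inl v ∈ A 0 → L.row v = y0 ∧ y1 = y0 := by
      intro v hv
      rw [hA0, mem_singleton] at hv
      rcases hB.start with h1 | h1
      · obtain ⟨e1, _, ⟨w, hw, hw2⟩, _⟩ := h1
        rw [hw] at hv
        have : v = w := Sum.inl.inj hv
        rw [this]
        exact ⟨hw2, e1⟩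
      · obtain ⟨_, _, _, ⟨q, hq⟩, _⟩ := h1
        rw [hq] at hv
        exact absurd hv (by simp)
    constructor
    · rcases t3 with h1 | ⟨v, hv, hv2⟩
      · exact h1
      · rw [← hv2]; exact (hm v hv).1
    · rcases b3 with h1 | ⟨v, hv, hv2⟩
      · exact h1
      · rw [← hv2, (hm v hv).1, (hm v hv).2]
  · -- (7)
    intro s
    obtain ⟨⟨t1, t2, t3⟩, _, _⟩ := hT V {q : F // I q} L.row y0 (A (s + 1))
    obtain ⟨_, ⟨b1, b2, b3⟩, _⟩ := hT V {q : F // I q} L.row y1 (A (s + 1))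
    obtain ⟨⟨t1', t2', t3'⟩, _, _⟩ := hT V {q : F // I q} L.row y0 (A s)
    obtain ⟨_, ⟨b1', b2', b3'⟩, _⟩ := hT V {q : F // I q} L.row y1 (A s)
    have hv' : ∀ v, Sum.inl v ∈ A (s + 1) →
        L.row v ≤ tp L.row y0 (A s) + 1 ∧ bt L.row y1 (A s) ≤ L.row v + 1 := by
      intro v hv
      rcases hB.fire.new s _ hv with h1 | h1
      · have h2 := t2' v h1
        have h3 := b2' v h1
        omega
      · exact key s v h1
    constructor
    · rcases t3 with h1 | ⟨v, hv, hv2⟩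
      · omega
      · have := (hv' v hv).1
        omega
    · rcases b3 with h1 | ⟨v, hv, hv2⟩
      · omega
      · have := (hv' v hv).2
        omega
  · -- (8)
    intro s v hv
    exact key s v (hB.fire.adjQ s _ hv)
  · -- (9)
    intro s hs
    obtain ⟨⟨t1, t2, t3⟩, _, _⟩ := hT V {q : F // I q} L.row y0 (A s)
    obtain ⟨_, ⟨b1, b2, b3⟩, _⟩ := hT V {q : F // I q} L.row y1 (A s)
    have hw : ∃ w, Sum.inl w ∈ A s ∧ y0 ≤ L.row w ∧ L.row w ≤ y1 := by
      rcases hB.start with h1 | h1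
      · obtain ⟨e1, _, ⟨w, hw, hw2⟩, _⟩ := h1
        refine ⟨w, ?_, by omega, by omega⟩
        apply hmono (Nat.zero_le s)
        rw [hA0, hw]
        exact mem_singleton_self _
      · obtain ⟨e1, _, ⟨j, hj⟩, ⟨q0, hq0⟩, _⟩ := h1
        have hs1 : 1 ≤ s := by
          rcases hs with h2 | h2
          · exact absurd ((hj _).2 rfl) (h2 _)
          · exact h2
        obtain ⟨u, hu, hu0⟩ := hB.fire.esc
        rcases hB.fire.new 0 u hu with h2 | ⟨u', hu', h2⟩
        · rw [hA0, mem_singleton] at h2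
          exact absurd h2 hu0
        · rw [hA0, mem_singleton, hq0] at hu'
          rw [hu'] at h2
          rcases u with w | q
          · obtain ⟨h3, h4⟩ := hcor q0 w ((hA2 q0 w).1.1 h2)
            exact ⟨w, hmono hs1 hu, by omega, by omega⟩
          · exact absurd h2 (hA3 _ _)
    obtain ⟨w, hw1, hw2, hw3⟩ := hw
    have h5 := t2 w hw1
    have h6 := b2 w hw1
    constructor
    · rcases t3 with h1 | h1
      · rcases eq_or_lt_of_le hw2 with h7 | h7
        · exact ⟨w, hw1, by omega⟩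
        · exfalso; omega
      · exact h1
    · rcases b3 with h1 | h1
      · exact ⟨w, hw1, by omega⟩
      · exact h1

end Pool.Agent.Helper35.UB
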