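import Pool.Agent.Helper74.UB.Goals5

/-!
# UB-BURNT: the host vertices that do not burn
-/

namespace Pool.Agent.Helper35.UB

open Finset Equiv Helper28.VF Pool.Agent.Helper74.UB
open Pool.Agent.Helper34.FF (burn prot Legal saved sn rho)
open scoped Classical

section host
variable {K h : ℕ} {V D E F : Type} [Fintype V] [Fintype D] [Fintype E] [Fintype F]
  {L : Lay V} {f : ℤ → ZMod (3 * 2 ^ K) → V} {M : PM D V E F} {dE dW : V → D} {dU dN : V → V → D}

theorem strip_uniq {row : V → ℤ} {d : D} {y y' : ℤ} (h1 : InStrip M row d y)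
    (h2 : InStrip M row d y') : y = y' := by
  obtain ⟨a1, ⟨e1, b1, c1⟩, ⟨e2, b2, c2⟩⟩ := h1
  obtain ⟨a2, _, _⟩ := h2
  have := a2 e1 b1
  have := a2 e2 b2
  omega

/-- Every square of the host is the face of some `dE (f y j)`. -/
theorem sq_face (hSt : StmtStrip) (hSq : StmtSq) (hH : Host K h L f) (hL : LM L M dE dW dU dN)
    {d : D} (hd : T4 M d) : ∃ (y : ℤ) (j : ZMod (3 * 2 ^ K)), 0 ≤ y ∧ y < h ∧ Even y ∧
      M.fc d = M.fc (dE (f y j)) ∧ InStrip M L.row d y := by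
  obtain ⟨hS1, hS2, hS3, hS4, hS5, hS6⟩ := hSt K h V D E F L f M dE dW dU dN hH hL
  obtain ⟨y, hy0, hy1, hev, hst⟩ := (hS6 d).1 hd
  have hK := hH.K1
  have hr0 := hH.r0
  have hr1 := hH.r1
  have hrow := hst.1 d rfl
  have hcov := hL.cov d
  have hF := hH.flat
  have hev' : Even y.toNat := by
    have h1 : ((y.toNat : ℕ) : ℤ) = y := Int.toNat_of_nonneg hy0
    rw [← Int.even_coe_nat, h1]
    exact hev
  have hyn : ((y.toNat : ℕ) : ℤ) = y := Int.toNat_of_nonneg hy0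
  rcases hcov with ⟨v, rfl⟩ | ⟨v, rfl⟩ | ⟨v, k, hvk, rfl⟩ | ⟨v, k, hvk, rfl⟩
  · rw [hL.vE] at hrow
    have h1 := strip_uniq hst (hS1 v (by omega))
    obtain ⟨j, hj⟩ := hF.surj v (by omega) (by omega)
    refine ⟨y, j, hy0, hy1, hev, ?_, hst⟩
    rw [h1, hj]
  · rw [hL.vW, hH.ax.row_e] at hrow
    have h1 := strip_uniq hst (hS2 v (by omega))
    obtain ⟨j, hj⟩ := hF.surj v (by omega) (by omega)
    refine ⟨y, j, hy0, hy1, hev, ?_, hst⟩
    have h2 := (hSq K h V D E F L f M dE dW dU dN hH hL y j hy0 hy1 hev).2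
    have h3 : L.row v = y + 1 := by omega
    rw [h3] at hj
    rw [← hj]
    exact (h2 _).2 (Or.inr (Or.inr (Or.inl rfl)))
  · rw [hL.vU _ _ hvk] at hrow
    have h1 := strip_uniq hst (hS3 v k hvk).1
    obtain ⟨j, hj⟩ := hF.surj v (by omega) (by omega)
    rw [← h1] at hj
    refine ⟨y, j - 1, hy0, hy1, hev, ?_, hst⟩
    have h2 := (hSq K h V D E F L f M dE dW dU dN hH hL y (j - 1) hy0 hy1 hev).2
    have h4 : k = f (y + 1) j := by
      have h5 := (hF.upS y.toNat j k (Nat.zero_le _) (by omega) hev').1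
      rw [hyn] at h5
      exact h5 (by rw [hj]; exact hvk)
    have h6 := (h2 (dU v k)).2 (Or.inr (Or.inl (by rw [sub_add_cancel, hj, h4])))
    exact h6
  · have hv : L.row v = y := by
      rw [hL.vN _ _ hvk] at hrow
      exact (strip_uniq hst (hS3 v k hvk).2).symm
    obtain ⟨j, hj⟩ := hF.surj v (by omega) (by omega)
    rw [hv] at hj
    refine ⟨y, j, hy0, hy1, hev, ?_, hst⟩
    have h2 := (hSq K h V D E F L f M dE dW dU dN hH hL y j hy0 hy1 hev).2
    have h4 : k = f (y + 1) j := by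
      have h5 := (hF.upS y.toNat j k (Nat.zero_le _) (by omega) hev').1
      rw [hyn] at h5
      exact h5 (by rw [hj]; exact hvk)
    exact (h2 (dN v k)).2 (Or.inr (Or.inr (Or.inr (by rw [hj, h4]))))

theorem burnt_core (hBX : StmtBadX) (hHT : StmtHT) (v₀ : GV M) (σ : ℕ → Finset (GV M))
    {E' F' : Type} [Fintype E'] [Fintype F'] {I : F → Prop} {M' : PM (DC M I) (VC V I) E' F'}
    {y0 y1 : ℤ} {c : ℕ} {v₁ : VC V I} {A Q R : ℕ → Finset (VC V I)}
    (hB : Base K h L f M dE dW dU dN I M' y0 y1 c v₁ A Q) (hQR : ∀ s, Q s ⊆ R s)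
    (hRR : ∀ s, R s ⊆ R (s + 1)) (hRc : ∀ s, (R s).card ≤ s + 3)
    (hA : ∀ s u, Sum.inl u ∈ A s → Sum.inl (Sum.inl u) ∈ burn (GS M) v₀ σ (s + 2))
    (hy0 : 16 * (K : ℤ) + 60 ≤ y0) (hy1 : y1 + 16 * K + 60 ≤ h) :
    (univ.filter fun v => Sum.inl (Sum.inl v) ∉ burn (GS M) v₀ σ (3 * h + 8 * K + 25)).card ≤
      2 * (3 * 2 ^ K) + 3 * (3 * h + 8 * K + 26) * (h + 1) := by
  have hH := hB.host
  have hK := hH.K1
  have hr0 := hH.r0
  have hr1 := hH.r1
  have hne : NeZero (3 * 2 ^ K) := ⟨by positivity⟩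
  have hmono : Monotone R := monotone_nat_of_le_succ hRR
  have hex1 : ∀ x, ∃ w, L.up (f h x) w := by
    intro x
    have hrow : L.row (f (h : ℤ) x) = h := hH.flat.row h x (Nat.zero_le _) le_rfl
    obtain ⟨k, hk, _⟩ := hH.ax.ul (f (h : ℤ) x) (by omega)
    exact ⟨k, hk.1⟩
  have hex2 : ∀ x, ∃ w, L.up w (f 0 x) := by
    intro x
    have hrow : L.row (f (0 : ℤ) x) = 0 := by
      have := hH.flat.row 0 x le_rfl (Nat.zero_le _)
      simpa using this
    obtain ⟨k, hk, _⟩ := hH.ax.dl (f (0 : ℤ) x) (by omega)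
    exact ⟨k, hk.1⟩
  choose w₁ hw₁ using hex1
  choose w₂ hw₂ using hex2
  have hbad := hBX K h V F L f hH I w₁ w₂ hw₁ hw₂ (R (3 * h + 8 * K + 23))
  set bad := univ.filter fun x => ¬ Disjoint (R (3 * h + 8 * K + 23))
    (colX I h f (w₁ x) (w₂ x) x) with hbaddef
  have hRT := hRc (3 * h + 8 * K + 23)
  have hbad' : bad.card ≤ 3 * (3 * h + 8 * K + 26) := by omega
  have hsub : (univ.filter fun v => Sum.inl (Sum.inl v) ∉
      burn (GS M) v₀ σ (3 * h + 8 * K + 25)) ⊆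
      (univ.filter fun v => L.row v < 0 ∨ (h : ℤ) < L.row v) ∪
        ((Finset.range (h + 1)) ×ˢ bad).image fun p => f (p.1 : ℤ) p.2 := by
    intro v hv
    rw [mem_filter] at hv
    rw [mem_union, mem_filter, mem_image]
    by_cases hc : L.row v < 0 ∨ (h : ℤ) < L.row v
    · exact Or.inl ⟨mem_univ _, hc⟩
    · right
      push Not at hc
      obtain ⟨x, hx⟩ := hH.flat.surj v hc.1 hc.2
      have hn : (((L.row v).toNat : ℕ) : ℤ) = L.row v := Int.toNat_of_nonneg hc.1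
      refine ⟨((L.row v).toNat, x), ?_, ?_⟩
      · rw [mem_product]
        refine ⟨?_, ?_⟩
        · simp only [mem_range]
          omega
        · simp only
          by_contra hxb
          rw [hbaddef, mem_filter] at hxb
          push Not at hxb
          have hdis := hxb (mem_univ _)
          have hall := hHT K h V D E F E' F' L f M dE dW dU dN I M' y0 y1 c v₁ A Q hB hy0 hy1
            (w₁ x) (w₂ x) x (hw₁ x) (hw₂ x) (by
              intro s hs
              exact Finset.disjoint_of_subset_left ((hQR s).trans (hmono hs)) hdis)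
          have hmem : (Sum.inl v : VC V I) ∈ colX I h f (w₁ x) (w₂ x) x := by
            unfold colX
            rw [mem_insert, mem_insert, mem_image]
            refine Or.inr (Or.inr ⟨L.row v, ?_, by rw [hx]⟩)
            rw [Finset.mem_Icc]
            exact hc
          exact hv.2 (hA _ _ (hall _ hmem))
      · simp only
        rw [hn, hx]
  refine (card_le_card hsub).trans ((card_union_le _ _).trans ?_)
  have h1 := hH.cap
  have h2 : (((Finset.range (h + 1)) ×ˢ bad).image fun p => f (p.1 : ℤ) p.2).card ≤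
      3 * (3 * h + 8 * K + 26) * (h + 1) := by
    refine card_image_le.trans ?_
    rw [card_product, card_range, mul_comm]
    exact Nat.mul_le_mul_right _ hbad'
  exact Nat.add_le_add h1 h2

end host

theorem burnt (hRA : StmtRedA) (hRB : StmtRedB) (hBX : StmtBadX) (hHT : StmtHT)
    (hCo : StmtCone) (hSt : StmtStrip) (hSq : StmtSq) (hPB : StmtPB) : StmtBurnt := by
  intro K h V D E F _ _ _ _ L f M dE dW dU dN hH hL v₀ σ hTyp hLeg
  obtain ⟨_, _, hP3, hP4⟩ := hPB (GV M) (GS M) v₀ σ hLeg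
  -- case (A)
  have caseA : ∀ (v : V) (r : ℕ), r ≤ 1 → 16 * (K : ℤ) + 60 ≤ L.row v →
      L.row v ≤ h - 16 * K - 60 → Sum.inl (Sum.inl v) ∈ burn (GS M) v₀ σ r →
      (univ.filter fun v => Sum.inl (Sum.inl v) ∉
        burn (GS M) v₀ σ (3 * h + 8 * K + 25)).card ≤
      2 * (3 * 2 ^ K) + 3 * (3 * h + 8 * K + 26) * (h + 1) := by
    intro v r hr h1 h2 hv
    obtain ⟨E', F', _, _, M', hM'⟩ := hCo D V E F M (fun _ => False)
    obtain ⟨A, Q, R, a1, a2, a3, a4, a5⟩ := hRA K h V D E F E' F' L f M dE dW dU dN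
      (fun _ => False) M' hH hL hM' (fun _ hq => hq) v₀ σ hLeg v r (by omega) (by omega) hr hv
    exact burnt_core hBX hHT v₀ σ a1 a2 a3 (fun s => (a4 s).trans (by omega)) a5 h1 (by omega)
  -- case (B)
  have caseB : ∀ (d : D) (hd : T4 M d) (r : ℕ), r ≤ 1 →
      (∀ e, M.fc e = M.fc d → 16 * (K : ℤ) + 60 ≤ L.row (M.vt e) ∧
        L.row (M.vt e) ≤ h - 16 * K - 60) →
      Sum.inl (Sum.inr ⟨M.fc d, d, rfl, hd⟩) ∈ burn (GS M) v₀ σ r →
      (r = 1 → ∃ e, M.fc e = M.fc d ∧ Sum.inl (Sum.inl (M.vt e)) ∈ prot σ 1) →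
      (univ.filter fun v => Sum.inl (Sum.inl v) ∉
        burn (GS M) v₀ σ (3 * h + 8 * K + 25)).card ≤
      2 * (3 * 2 ^ K) + 3 * (3 * h + 8 * K + 26) * (h + 1) := by
    intro d hd r hr h1 hq hp
    obtain ⟨y, j, hy0, hy1, hev, hfc, hst⟩ := sq_face hSt hSq hH hL hd
    obtain ⟨E', F', _, _, M', hM'⟩ := hCo D V E F M (fun q => q = M.fc (dE (f y j)))
    obtain ⟨A, Q, R, v₁, a1, a2, a3, a4, a5⟩ := hRB K h V D E F E' F' L f M dE dW dU dN
      (fun q => q = M.fc (dE (f y j))) M' hH hL hM' y j (fun _ => Iff.rfl) hy0 hy1 hev v₀ σ hLeg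
      ⟨M.fc d, d, rfl, hd⟩ r hfc hr hq hp
    obtain ⟨_, ⟨e1, b1, c1⟩, ⟨e2, b2, c2⟩⟩ := hst
    have h3 := h1 e1 b1
    have h4 := h1 e2 b2
    exact burnt_core hBX hHT v₀ σ a1 a2 a3 (fun s => (a4 s).trans (by omega)) a5
      (by omega) (by omega)
  rcases v₀ with (v | q) | d
  · -- (i)
    refine caseA v 0 (by omega) hTyp.1 hTyp.2 ?_
    exact mem_singleton_self _
  · -- (ii)
    obtain ⟨q, d, rfl, hd⟩ := q
    refine caseB d hd 0 (by omega) hTyp ?_ (by omega)
    exact mem_singleton_self _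
  · -- (iii), (iv)
    have h0 : (Sum.inr d : GV M) ∈ burn (GS M) (Sum.inr d) σ 0 := mem_singleton_self _
    by_cases hp : (Sum.inl (Sum.inl (M.vt d.1)) : GV M) ∈ prot σ 1
    · refine caseB d.1 d.2 1 le_rfl hTyp ?_ (fun _ => ⟨d.1, rfl, hp⟩)
      have hadj : (GS M).Adj (Sum.inr d) (Sum.inl (Sum.inr ⟨M.fc d.1, d.1, rfl, d.2⟩)) := by
        refine ⟨by simp, Or.inl ?_⟩
        exact rfl
      refine hP4 0 _ _ h0 hadj ?_
      intro hq
      have hc := hP3 1
      rw [zero_add] at hq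
      have := Finset.card_le_one.1 hc _ hp _ hq
      simp at this
    · refine caseA (M.vt d.1) 1 le_rfl (hTyp d.1 rfl).1 (hTyp d.1 rfl).2 ?_
      have hadj : (GS M).Adj (Sum.inr d) (Sum.inl (Sum.inl (M.vt d.1))) := by
        refine ⟨by simp, Or.inl ?_⟩
        exact rfl
      exact hP4 0 _ _ h0 hadj hp

end Pool.Agent.Helper35.UB
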