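import Pool.Agent.Helper74.UB.Goals2

/-!
# UB-EXIT: the last exit of a walk from `O` gives a boundary dart
-/

namespace Pool.Agent.Helper35.UB

open Finset Equiv Helper28.VF Pool.Agent.Helper74.UB
open scoped Classical

/-- **EXIT.** -/
theorem exit (hB : StmtBdex) : StmtExit := by
  intro D V E F _ _ _ _ M A Q T X hX R s t O hs ht hOQ hex
  have adsymm : ∀ u v : V, Ad M u v → Ad M v u := by
    intro u v h
    obtain ⟨d, h1, h2⟩ := h
    refine ⟨M.α d, h2, ?_⟩
    unfold tg
    rw [M.α_inv]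
    exact h1
  have hXO : ∀ v ∈ X, v ∉ O := by
    intro v hv hvO
    exact Finset.disjoint_left.1 (hX.disj t ht) (hOQ hvO) hv
  set S : Finset ℕ := (Finset.range (R.n s + 1)).filter fun i => R.p s i ∈ O with hS
  have hSne : S.Nonempty := by
    obtain ⟨i, hi, hiO⟩ := hex
    exact ⟨i, by rw [hS, Finset.mem_filter, Finset.mem_range]; exact ⟨by omega, hiO⟩⟩
  set i₀ := S.max' hSne with hi₀
  have hmem : i₀ ∈ S := Finset.max'_mem _ _
  rw [hS, Finset.mem_filter, Finset.mem_range] at hmem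
  have hlast : ∀ j, i₀ < j → j ≤ R.n s → R.p s j ∉ O := by
    intro j hj hjn hjO
    have : j ∈ S := by
      rw [hS, Finset.mem_filter, Finset.mem_range]; exact ⟨by omega, hjO⟩
    have := Finset.le_max' S j this
    omega
  have hlt : i₀ < R.n s := by
    rcases Nat.lt_or_ge i₀ (R.n s) with h | h
    · exact h
    · exfalso
      have h' : i₀ = R.n s := by omega
      have h2 := hmem.2
      rw [h'] at h2
      exact hXO _ (R.fin s hs) h2
  refine ⟨i₀ + 1, by omega, by omega, ?_, ?_, ?_⟩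
  · simpa using hmem.2
  · intro j h1 h2
    exact hlast j (by omega) h2
  · have hb : R.p s (i₀ + 1) ∉ O := hlast _ (by omega) (by omega)
    have hw : Ad M (R.p s (i₀ + 1)) (R.p s i₀) := adsymm _ _ (R.walk s hs i₀ hlt)
    rcases Nat.lt_or_ge (i₀ + 1) (R.n s) with h | h
    · exact hB D V E F M O _ (R.p s (i₀ + 1 + 1)) (R.p s i₀) hb (R.walk s hs (i₀ + 1) h)
        (hlast _ (by omega) (by omega)) hw hmem.2
    · have h' : i₀ + 1 = R.n s := by omega
      have hbX : R.p s (i₀ + 1) ∈ X := by rw [h']; exact R.fin s hs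
      obtain ⟨v, hvX, hv⟩ := hX.nbr _ hbX
      exact hB D V E F M O _ v (R.p s i₀) hb hv (hXO v hvX) hw hmem.2

end Pool.Agent.Helper35.UB
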