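import Pool.Agent.Helper74.UB.Goals4

/-!
# UB-POT: the potential of the vertices above row `0`
-/

namespace Pool.Agent.Helper35.UB

open Finset Equiv Helper28.VF Pool.Agent.Helper74.UB
open scoped Classical

section flat
variable {V : Type} {L : Lay V} {N h : ℕ} {f : ℤ → ZMod N → V} (hF : Flat L N h f)
include hF

/-- `Flat.row` for integer rows. -/
theorem flat_row (r : ℤ) (i : ZMod N) (h0 : 0 ≤ r) (h1 : r ≤ h) : L.row (f r i) = r := by
  obtain ⟨n, rfl⟩ := Int.eq_ofNat_of_zero_le h0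
  exact hF.row n i (Nat.zero_le _) (by exact_mod_cast h1)

theorem flat_inj (r : ℤ) (i j : ZMod N) (h0 : 0 ≤ r) (h1 : r ≤ h) (hij : f r i = f r j) :
    i = j := by
  obtain ⟨n, rfl⟩ := Int.eq_ofNat_of_zero_le h0
  exact hF.inj n i j (Nat.zero_le _) (by exact_mod_cast h1) hij

theorem flat_e (r : ℤ) (i : ZMod N) (h0 : 0 ≤ r) (h1 : r ≤ h) : L.e (f r i) = f r (i + 1) := by
  obtain ⟨n, rfl⟩ := Int.eq_ofNat_of_zero_le h0
  exact hF.e n i (Nat.zero_le _) (by exact_mod_cast h1)

theorem flat_upS (r : ℤ) (i : ZMod N) (k : V) (h0 : 0 ≤ r) (h1 : r < h) (he : Even r) :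
    L.up (f r i) k ↔ k = f (r + 1) i := by
  obtain ⟨n, rfl⟩ := Int.eq_ofNat_of_zero_le h0
  exact hF.upS n i k (Nat.zero_le _) (by exact_mod_cast h1) ((Int.even_coe_nat n).1 he)

theorem flat_upT (r : ℤ) (i : ZMod N) (k : V) (h0 : 0 ≤ r) (h1 : r < h) (he : ¬ Even r) :
    L.up (f r i) k ↔ k = f (r + 1) i ∨ k = f (r + 1) (i + 1) := by
  obtain ⟨n, rfl⟩ := Int.eq_ofNat_of_zero_le h0
  exact hF.upT n i k (Nat.zero_le _) (by exact_mod_cast h1) (fun h => he ((Int.even_coe_nat n).2 h))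

theorem flat_up (r : ℤ) (i : ZMod N) (h0 : 0 ≤ r) (h1 : r < h) :
    L.up (f r i) (f (r + 1) i) := by
  by_cases he : Even r
  · exact (flat_upS hF r i _ h0 h1 he).2 rfl
  · exact (flat_upT hF r i _ h0 h1 he).2 (Or.inl rfl)

end flat

theorem pot (h0 : StmtCapD) : StmtPot := by
  intro K h V _ L f hH w hw
  obtain ⟨dd, hd0, hd1, hd2, hd3, hd4⟩ := h0 K h V L f hH w hw
  have hF := hH.flat
  -- the next vertex
  have hex : ∀ v : V, ∃ u : V,
      (∀ i, 0 ≤ L.row v → L.row v < h → f (L.row v) i = v → u = f (L.row v + 1) i) ∧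
      (L.row v = h → L.up v u ∧ dd u < dd v) ∧
      ((h : ℤ) + 1 ≤ L.row v → v ≠ w → L.adj v u ∧ (h : ℤ) + 1 ≤ L.row u ∧ dd u < dd v) := by
    intro v
    rcases lt_trichotomy (L.row v) (h : ℤ) with hlt | heq | hgt
    · by_cases hv0 : 0 ≤ L.row v
      · obtain ⟨i, hi⟩ := hF.surj v hv0 hlt.le
        refine ⟨f (L.row v + 1) i, ?_, ?_, ?_⟩
        · intro j _ _ hj
          have : j = i := flat_inj hF (L.row v) j i hv0 hlt.le (hj.trans hi.symm)
          rw [this]
        · intro h1; omega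
        · intro h1; omega
      · refine ⟨v, ?_, ?_, ?_⟩
        · intro j h1; exact absurd h1 hv0
        · intro h1; omega
        · intro h1; omega
    · obtain ⟨u, hu1, hu2⟩ := hd2 v heq
      refine ⟨u, ?_, ?_, ?_⟩
      · intro j _ h1; omega
      · intro _; exact ⟨hu1, hu2⟩
      · intro h1; omega
    · by_cases hvw : v = w
      · refine ⟨v, ?_, ?_, ?_⟩
        · intro j _ h1; omega
        · intro h1; omega
        · intro _ h1; exact absurd hvw h1
      · obtain ⟨u, hu1, hu2, hu3⟩ := hd1 v (by omega) hvw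
        refine ⟨u, ?_, ?_, ?_⟩
        · intro j _ h1; omega
        · intro h1; omega
        · intro _ _; exact ⟨hu1, hu2, hu3⟩
  choose nx hn1 hn2 hn3 using hex
  refine ⟨fun v => if (h : ℤ) ≤ L.row v then dd v else (2 * (K : ℤ) + 2 + h - L.row v).toNat, nx,
    ?_, ?_, ?_, ?_, ?_, ?_, ?_⟩
  · simp only
    rw [if_pos (by omega), hd0]
  · intro v hv0 hvw
    simp only
    rcases lt_trichotomy (L.row v) (h : ℤ) with hlt | heq | hgt
    · obtain ⟨i, hi⟩ := hF.surj v hv0 hlt.le
      have hnx : nx v = f (L.row v + 1) i := hn1 v i hv0 hlt hi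
      have hrow : L.row (nx v) = L.row v + 1 := by
        rw [hnx]; exact flat_row hF _ _ (by omega) (by omega)
      refine ⟨?_, ?_⟩
      · have h1 := flat_up hF (L.row v) i hv0 hlt
        rw [hi, ← hnx] at h1
        exact Or.inr (Or.inr (Or.inl h1))
      · rw [if_neg (by omega : ¬ (h : ℤ) ≤ L.row v)]
        by_cases h1 : (h : ℤ) ≤ L.row (nx v)
        · rw [if_pos h1]
          have := hd3 (nx v) h1
          omega
        · rw [if_neg h1]
          omega
    · obtain ⟨h1, h2⟩ := hn2 v heq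
      have h3 := hH.ax.up_row _ _ h1
      refine ⟨Or.inr (Or.inr (Or.inl h1)), ?_⟩
      rw [if_pos (by omega : (h : ℤ) ≤ L.row (nx v)), if_pos (by omega : (h : ℤ) ≤ L.row v)]
      exact h2
    · obtain ⟨h1, h2, h3⟩ := hn3 v (by omega) hvw
      refine ⟨h1, ?_⟩
      rw [if_pos (by omega : (h : ℤ) ≤ L.row (nx v)), if_pos (by omega : (h : ℤ) ≤ L.row v)]
      exact h3
  · intro r i hr0 hr1
    have hrow : L.row (f r i) = r := hF.row r i hr0 hr1.le
    have := hn1 (f r i) i (by omega) (by omega) (by rw [hrow])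
    rw [hrow] at this
    exact this
  · intro v hv hvw
    rcases eq_or_lt_of_le hv with heq | hgt
    · have := hH.ax.up_row _ _ (hn2 v heq.symm).1
      omega
    · exact (hn3 v (by omega) hvw).2.1
  · intro v hv
    simp only
    rw [if_neg (by omega)]
    omega
  · intro v hv
    simp only
    rw [if_pos hv]
    exact hd3 v hv
  · intro v u hv hu huv
    simp only
    rw [if_pos hu, if_pos (by omega : (h : ℤ) ≤ L.row v)]
    exact hd4 v u hv hu huv

end Pool.Agent.Helper35.UB
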