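import Pool.Agent.Helper74.UB.Goals5

/-!
# UB-SAVED: all saved vertices
-/

namespace Pool.Agent.Helper35.UB

open Finset Equiv Helper28.VF Pool.Agent.Helper74.UB
open Pool.Agent.Helper34.FF (burn prot Legal saved sn rho)
open scoped Classical

theorem deg_le_link {D V E F : Type} [Fintype D] [Fintype V] [Fintype E] [Fintype F]
    (M : PM D V E F) (v : V) : (univ.filter fun d => M.vt d = v).card ≤ link M v := by
  unfold link
  rw [card_eq_sum_ones]
  refine sum_le_sum ?_
  intro d _
  split_ifs <;> omega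

theorem saved (hBu : StmtBurnt) (hPB : StmtPB) (hHS : StmtHSmall) : StmtSaved := by
  intro K h V D E F _ _ _ _ L f M dE dW dU dN hH hL v₀ σ hTyp hLeg
  obtain ⟨_, _, hP3, hP4⟩ := hPB (GV M) (GS M) v₀ σ hLeg
  have hU := hBu K h V D E F L f M dE dW dU dN hH hL v₀ σ hTyp hLeg
  have hlink := (hHS K h V D E F L f M dE dW dU dN hH hL).2
  have hh : 1 ≤ h := by
    obtain ⟨k, hk⟩ := hH.hodd
    omega
  obtain ⟨T, hT⟩ : ∃ T, T = 3 * h + 8 * K + 25 := ⟨_, rfl⟩
  rw [← hT] at hU
  have hT1 : 3 * h + 8 * K + 26 = T + 1 := by omega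
  rw [hT1] at hU ⊢
  set U := univ.filter fun v => Sum.inl (Sum.inl v) ∉ burn (GS M) v₀ σ T with hUdef
  -- leaves
  set Le := univ.filter fun d : {d : D // T4 M d} =>
    (Sum.inr d : GV M) ∉ burn (GS M) v₀ σ (T + 1) with hLedef
  set Ce := univ.filter fun q : {q : F // IsSq M q} =>
    (Sum.inl (Sum.inr q) : GV M) ∉ burn (GS M) v₀ σ (T + 2) with hCedef
  have hLe : Le.card ≤ (T + 1) + 7 * U.card := by
    have hsub : Le ⊆ (univ.filter fun d : {d : D // T4 M d} => (Sum.inr d : GV M) ∈ prot σ (T + 1)) ∪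
        (univ.filter fun d : {d : D // T4 M d} => M.vt d.1 ∈ U) := by
      intro d hd
      rw [hLedef, mem_filter] at hd
      rw [mem_union, mem_filter, mem_filter]
      by_contra hcon
      push Not at hcon
      have h1 := hcon.1 (mem_univ _)
      have h2 := hcon.2 (mem_univ _)
      rw [hUdef, mem_filter] at h2
      push Not at h2
      have h3 := h2 (mem_univ _)
      have hadj : (GS M).Adj (Sum.inl (Sum.inl (M.vt d.1))) (Sum.inr d) := by
        refine ⟨by simp, Or.inr ?_⟩
        exact rfl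
      exact hd.2 (hP4 T _ _ h3 hadj h1)
    refine (card_le_card hsub).trans ((card_union_le _ _).trans ?_)
    refine Nat.add_le_add ?_ ?_
    · refine le_trans ?_ (hP3 (T + 1))
      refine card_le_card_of_injOn (fun d => (Sum.inr d : GV M)) ?_ ?_
      · intro d hd
        rw [mem_coe, mem_filter] at hd
        exact hd.2
      · intro a _ b _ hab
        exact Sum.inr.inj hab
    · have h1 : (univ.filter fun d : {d : D // T4 M d} => M.vt d.1 ∈ U).card ≤
          (univ.filter fun d : D => M.vt d ∈ U).card := by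
        refine card_le_card_of_injOn (fun d => d.1) ?_ ?_
        · intro d hd
          rw [mem_coe, mem_filter] at hd
          rw [mem_coe, mem_filter]
          exact ⟨mem_univ _, hd.2⟩
        · intro a _ b _ hab
          exact Subtype.ext hab
      have h2 : (univ.filter fun d : D => M.vt d ∈ U).card =
          ∑ v ∈ U, (univ.filter fun d => M.vt d = v).card := by
        rw [card_eq_sum_card_fiberwise (f := fun d => M.vt d) (t := U)]
        · refine sum_congr rfl ?_
          intro v hv
          congr 1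
          ext d
          simp only [mem_filter, mem_univ, true_and]
          constructor
          · exact fun h => h.2
          · exact fun h => ⟨by rw [h]; exact hv, h⟩
        · intro d hd
          rw [mem_coe, mem_filter] at hd
          exact hd.2
      refine h1.trans ?_
      rw [h2, mul_comm]
      have h3 : ∑ v ∈ U, (univ.filter fun d => M.vt d = v).card ≤ ∑ v ∈ U, 7 :=
        sum_le_sum fun v _ => (deg_le_link M v).trans (hlink v)
      simpa using h3
  have hCe : Ce.card ≤ (T + 2) + Le.card := by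
    have hsub : Ce ⊆ (univ.filter fun q : {q : F // IsSq M q} =>
        (Sum.inl (Sum.inr q) : GV M) ∈ prot σ (T + 2)) ∪
        Le.image (fun d => (⟨M.fc d.1, d.1, rfl, d.2⟩ : {q : F // IsSq M q})) := by
      intro q hq
      rw [hCedef, mem_filter] at hq
      rw [mem_union, mem_filter, mem_image]
      by_contra hcon
      push Not at hcon
      have h1 := hcon.1 (mem_univ _)
      obtain ⟨q, d, rfl, hd⟩ := q
      have h2 : (⟨d, hd⟩ : {d : D // T4 M d}) ∉ Le := fun h => hcon.2 _ h rfl
      rw [hLedef, mem_filter] at h2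
      push Not at h2
      have h3 := h2 (mem_univ _)
      have hadj : (GS M).Adj (Sum.inr ⟨d, hd⟩) (Sum.inl (Sum.inr ⟨M.fc d, d, rfl, hd⟩)) := by
        refine ⟨by simp, Or.inl ?_⟩
        exact rfl
      exact hq.2 (hP4 (T + 1) _ _ h3 hadj h1)
    refine (card_le_card hsub).trans ((card_union_le _ _).trans ?_)
    refine Nat.add_le_add ?_ card_image_le
    refine le_trans ?_ (hP3 (T + 2))
    refine card_le_card_of_injOn (fun q => (Sum.inl (Sum.inr q) : GV M)) ?_ ?_
    · intro d hd
      rw [mem_coe, mem_filter] at hd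
      exact hd.2
    · intro a _ b _ hab
      exact Sum.inr.inj (Sum.inl.inj hab)
  have hS : (Pool.Agent.Helper34.FF.saved (GS M) v₀ σ).card ≤ U.card + Le.card + Ce.card := by
    have hsub : Pool.Agent.Helper34.FF.saved (GS M) v₀ σ ⊆
        (U.image fun v => (Sum.inl (Sum.inl v) : GV M)) ∪
        (Le.image fun d => (Sum.inr d : GV M)) ∪
        (Ce.image fun q => (Sum.inl (Sum.inr q) : GV M)) := by
      intro x hx
      unfold Pool.Agent.Helper34.FF.saved at hx
      rw [mem_filter] at hx
      rw [mem_union, mem_union, mem_image, mem_image, mem_image]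
      rcases x with (v | q) | d
      · exact Or.inl (Or.inl ⟨v, by rw [hUdef, mem_filter]; exact ⟨mem_univ _, hx.2 _⟩, rfl⟩)
      · exact Or.inr ⟨q, by rw [hCedef, mem_filter]; exact ⟨mem_univ _, hx.2 _⟩, rfl⟩
      · exact Or.inl (Or.inr ⟨d, by rw [hLedef, mem_filter]; exact ⟨mem_univ _, hx.2 _⟩, rfl⟩)
    refine (card_le_card hsub).trans ((card_union_le _ _).trans ?_)
    refine Nat.add_le_add ((card_union_le _ _).trans ?_) card_image_le
    exact Nat.add_le_add card_image_le card_image_le
  have h1 : (T + 1) * (h + 1) = (T + 1) * h + (T + 1) := by ring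
  have h2 : T + 1 ≤ (T + 1) * h := Nat.le_mul_of_pos_right _ hh
  have h3 : 3 * (T + 1) * (h + 1) = 3 * ((T + 1) * (h + 1)) := by ring
  have h4 : 48 * (T + 1) * (h + 1) = 48 * ((T + 1) * (h + 1)) := by ring
  rw [h3] at hU
  rw [h4]
  obtain ⟨N, hN⟩ : ∃ N, N = 3 * 2 ^ K := ⟨_, rfl⟩
  rw [← hN] at hU ⊢
  clear hN h3 h4
  obtain ⟨X, hX⟩ : ∃ X, X = (T + 1) * (h + 1) := ⟨_, rfl⟩
  obtain ⟨Y, hY⟩ : ∃ Y, Y = (T + 1) * h := ⟨_, rfl⟩
  rw [← hX] at hU h1 ⊢
  rw [← hY] at h1 h2
  omega

end Pool.Agent.Helper35.UB
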